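import Mathlib
import Pool.Agent.Helper9.NS
import Pool.Agent.Helper79.JC.Defs
import Pool.Agent.Helper15.GT.Move
import Pool.Agent.Helper15.KP.HFb

/-!
# JC: every rational place is composite at finitely many elements

`Ω` is an algebraic closure of the function field `K` of a curve over `k`, `M` a field over `Ω`. For every rational place `w` of `M`
over `k` and finitely many elements of its ring there is a composite place with the same values. Curve selection
gives a homomorphism to a function field of one variable in which an element `t` of `K` remains transcendental;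
a valuation ring of `M` which dominates its kernel contains `Ω`.
-/

set_option linter.unusedSectionVars false

namespace Pool.Agent.Helper35.JC

open VC VF Function Polynomial Pool.Agent.Helper21.TO Pool.Agent.Helper21.TB Pool.Agent.Helper15.GT
open Pool.Agent.Helper15.KP Pool.Agent.Helper98.JC Pool.Agent.Helper79.JC

universe u

section val

variable {M : Type u} [Field M]

/-- A valuation ring which dominates the local ring of a subring at a prime ideal. -/
lemma exists_val (A : Subring M) (P : Ideal A) [P.IsPrime] :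
    ∃ V : ValuationSubring M, A ≤ V.toSubring ∧ ∀ a : A, (a : M) ∈ V.nonunits ↔ a ∈ P := by
  have ⟨V, hV⟩ := (LocalSubring.ofPrime A P).exists_le_valuationSubring
  have h1 : A.subtype '' P ⊆ V.nonunits := by
    rw [← V.image_maximalIdeal]
    refine .trans ?_ (Set.image_mono <| ((IsLocalRing.local_hom_TFAE _).out 0 2).mp hV.2)
    rw [← IsLocalization.AtPrime.map_eq_maximalIdeal P, Ideal.map_map]
    rintro _ ⟨a, ha, rfl⟩
    exact ⟨_, Ideal.mem_map_of_mem _ ha, rfl⟩
  refine ⟨V, (LocalSubring.le_ofPrime ..).trans hV.1, fun a => ⟨fun h => ?_, fun h => h1 ⟨a, h, rfl⟩⟩⟩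
  by_contra ha
  obtain ⟨b, hb⟩ := (IsLocalization.map_units (LocalSubring.ofPrime A P).toSubring
    (⟨a, ha⟩ : P.primeCompl)).exists_right_inv
  have h3 : (a : M) * (b : M) = 1 := congrArg Subtype.val hb
  have h4 : (b : M) ∈ V := hV.1 b.2
  rw [ValuationSubring.mem_nonunits_iff_or] at h
  rcases h with h | h
  · rw [h, zero_mul] at h3
    exact zero_ne_one h3
  · apply h
    rw [← eq_inv_of_mul_eq_one_right h3]
    exact h4

lemma val_unit {V : ValuationSubring M} {a : M} (h : a ∈ V) (h' : a ∉ V.nonunits) : V.valuation a = 1 := by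
  rw [ValuationSubring.mem_nonunits_iff, not_lt] at h'
  exact le_antisymm ((V.valuation_le_one_iff a).mpr h) h'

/-- Values of polynomials at an element without residue. -/
lemma poly_unit {k : Type u} [Field k] [IsAlgClosed k] [Algebra k M] (V : ValuationSubring M)
    (hk : ∀ c : k, c ≠ 0 → V.valuation (algebraMap k M c) = 1) (T : M) (hT : T ∈ V)
    (h : ∀ c : k, T - algebraMap k M c ∉ V.nonunits) (n : ℕ) :
    ∀ r : k[X], r.natDegree ≤ n → r ≠ 0 → V.valuation (aeval T r) = 1 := by
  have hkm : ∀ c : k, algebraMap k M c ∈ V := by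
    intro c
    by_cases hc : c = 0
    · rw [hc, map_zero]
      exact V.zero_mem
    · rw [← V.valuation_le_one_iff, hk c hc]
  induction n with
  | zero =>
    intro r hr h0
    rw [Polynomial.eq_C_of_natDegree_le_zero hr, aeval_C]
    apply hk
    intro h1
    apply h0
    rw [Polynomial.eq_C_of_natDegree_le_zero hr, h1, C_0]
  | succ n ih =>
    intro r hr h0
    by_cases hd : r.natDegree = 0
    · exact ih r (by omega) h0
    · obtain ⟨c, hroot⟩ := IsAlgClosed.exists_root r (by
        intro h
        exact hd (natDegree_eq_of_degree_eq_some h))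
      obtain ⟨q, rfl⟩ := dvd_iff_isRoot.2 hroot
      have hq0 : q ≠ 0 := right_ne_zero_of_mul h0
      rw [natDegree_mul (X_sub_C_ne_zero c) hq0, natDegree_X_sub_C] at hr
      rw [map_mul, map_mul, ih q (by omega) hq0, mul_one, map_sub, aeval_X, aeval_C]
      exact val_unit (sub_mem hT (hkm c)) (h c)

/-- The valuation is trivial on an algebraic extension if it is trivial on the field. -/
lemma alg_unit {E Ω : Type u} [Field E] [Field Ω] [Algebra E Ω] [Algebra Ω M] (V : ValuationSubring M)
    (hE : ∀ e : E, e ≠ 0 → V.valuation (algebraMap Ω M (algebraMap E Ω e)) = 1) (hA : Algebra.IsAlgebraic E Ω)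
    (a : Ω) (ha : a ≠ 0) : V.valuation (algebraMap Ω M a) = 1 := by
  have hEm : ∀ e : E, algebraMap Ω M (algebraMap E Ω e) ∈ V := by
    intro e
    by_cases he : e = 0
    · rw [he, map_zero, map_zero]
      exact V.zero_mem
    · rw [← V.valuation_le_one_iff, hE e he]
  have key : ∀ b : Ω, b ≠ 0 → 1 ≤ V.valuation (algebraMap Ω M b) := by
    intro b hb
    by_contra hcon
    rw [not_le] at hcon
    obtain ⟨q, hq0, hq⟩ := (hA.isAlgebraic b).exists_nonzero_coeff_and_aeval_eq_zero
      (mem_nonZeroDivisors_of_ne_zero hb)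
    have hbm : algebraMap Ω M b ∈ V := by
      rw [← V.valuation_le_one_iff]
      exact hcon.le
    have h1 : aeval b q.divX * b + algebraMap E Ω (q.coeff 0) = 0 := by
      have h2 := congrArg (aeval b) q.divX_mul_X_add
      rw [map_add, map_mul, aeval_X, aeval_C, hq] at h2
      exact h2
    have h3 : algebraMap Ω M (aeval b q.divX) ∈ V := by
      rw [aeval_eq_sum_range, map_sum]
      refine V.toSubring.sum_mem fun i _ => ?_
      rw [Algebra.smul_def, map_mul, map_pow]
      exact V.mul_mem _ _ (hEm _) (V.toSubring.pow_mem hbm i)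
    have h4 : algebraMap Ω M (algebraMap E Ω (q.coeff 0)) = - (algebraMap Ω M (aeval b q.divX) * algebraMap Ω M b) := by
      rw [← map_mul, ← map_neg]
      congr 1
      linear_combination h1
    have h5 := hE _ hq0
    rw [h4, Valuation.map_neg, map_mul] at h5
    have h6 : V.valuation (algebraMap Ω M (aeval b q.divX)) ≤ 1 := (V.valuation_le_one_iff _).mpr h3
    have h7 : V.valuation (algebraMap Ω M (aeval b q.divX)) * V.valuation (algebraMap Ω M b) < 1 :=
      lt_of_le_of_lt (mul_le_of_le_one_left' h6) hcon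
    exact h7.ne h5
  refine le_antisymm ?_ (key a ha)
  have h1 := key a⁻¹ (inv_ne_zero ha)
  rw [map_inv₀, map_inv₀] at h1
  exact (one_le_inv₀ (by
    rw [zero_lt_iff]
    exact (Valuation.ne_zero_iff _).mpr ((_root_.map_ne_zero _).mpr ha))).mp h1

end val

open scoped IntermediateField.algebraAdjoinAdjoin in
/-- A polynomial relation in two variables. -/
lemma exists_poly2 {k L : Type u} [Field k] [Field L] [Algebra k L] (s y : L)
    (hy : IsAlgebraic (IntermediateField.adjoin k {s}) y) :
    ∃ p : k[X][X], p ≠ 0 ∧ p.eval₂ ((aeval s : k[X] →ₐ[k] L) : k[X] →+* L) y = 0 := by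
  have hy' : IsAlgebraic (Algebra.adjoin k {s}) y :=
    (IsFractionRing.isAlgebraic_iff (Algebra.adjoin k {s}) (IntermediateField.adjoin k {s}) L).mpr hy
  obtain ⟨q, hq0, hq⟩ := hy'
  have h1 : ∀ a : Algebra.adjoin k {s}, ∃ r : k[X], aeval s r = (a : L) := by
    rintro ⟨a, h2⟩
    rw [Algebra.adjoin_singleton_eq_range_aeval] at h2
    exact h2
  choose r hr using h1
  refine ⟨∑ i ∈ q.support, C (r (q.coeff i)) * X ^ i, ?_, ?_⟩
  · intro h0
    apply hq0
    refine Polynomial.ext fun i => ?_
    have h2 := congrArg (fun p => p.coeff i) h0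
    simp only [finsetSum_coeff, coeff_C_mul, coeff_X_pow, mul_ite, mul_one, mul_zero, coeff_zero,
      Finset.sum_ite_eq, mem_support_iff] at h2
    rw [coeff_zero]
    by_contra h3
    rw [if_pos (show q.coeff i ≠ 0 from h3)] at h2
    have h4 := hr (q.coeff i)
    rw [h2, map_zero] at h4
    exact h3 (Subtype.ext h4.symm)
  · rw [eval₂_finset_sum]
    rw [aeval_eq_sum_range' (n := q.natDegree + 1) (by omega)] at hq
    rw [← hq]
    rw [← Finset.sum_subset (s₁ := q.support) (s₂ := Finset.range (q.natDegree + 1))]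
    · refine Finset.sum_congr rfl fun i _ => ?_
      rw [eval₂_mul, eval₂_C, eval₂_X_pow, Algebra.smul_def]
      congr 1
      exact hr _
    · intro i hi
      rw [Finset.mem_range]
      have := le_natDegree_of_mem_supp i hi
      omega
    · intro i _ hi
      rw [notMem_support_iff.mp hi, zero_smul]

lemma exists_reshom_rpl' {k F : Type u} [Field k] [Field F] [Algebra k F] (w : RPl k F) (A : Subalgebra k F)
    (h : ∀ z ∈ A, z ∈ w.ring) : ∃ χw : A →ₐ[k] k, ∀ z : A, Rs w (z : F) (χw z) := by
  choose f hf using fun z : A => exists_rs (w := w) (h z z.2)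
  refine ⟨{ toFun := f, map_one' := ?_, map_mul' := ?_, map_zero' := ?_, map_add' := ?_,
            commutes' := ?_ }, hf⟩
  · exact (hf 1).unique rs_one
  · intro a b
    exact (hf (a * b)).unique ((hf a).mul (hf b))
  · exact (hf 0).unique rs_zero
  · intro a b
    exact (hf (a + b)).unique ((hf a).add (hf b))
  · intro r
    exact (hf _).unique (rs_const r)

lemma transcendental_sub_const {k K : Type u} [Field k] [Field K] [Algebra k K] {u : K} (hu : Transcendental k u)
    (c : k) : Transcendental k (u - algebraMap k K c) := by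
  intro h
  apply hu
  have h1 := h.add (isAlgebraic_algebraMap (R := k) (A := K) c)
  rwa [sub_add_cancel] at h1

lemma mem_range_of_isAlgebraic {k K : Type u} [Field k] [IsAlgClosed k] [Field K] [Algebra k K] {s : K}
    (hs : IsAlgebraic k s) : ∃ c : k, algebraMap k K c = s :=
  minpoly.mem_range_of_degree_eq_one k s
    (IsAlgClosed.degree_eq_one_of_irreducible k (minpoly.irreducible hs.isIntegral))

section main

variable {k K Ω M : Type u} [Field k] [IsAlgClosed k] [CharZero k] [Field K] [Algebra k K]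
    [Field Ω] [Algebra k Ω] [Algebra K Ω] [IsScalarTower k K Ω]
    [IsAlgClosed Ω] [CharZero Ω] [Algebra.IsAlgebraic K Ω] [Field M] [Algebra k M] [Algebra Ω M]
    [IsScalarTower k Ω M]

/-- For finitely many elements of the ring of a rational place there is a composite place with the same values. -/
theorem dense (hK : IsFunctionField k K) (w : RPl k M) (Z : Set M) (hZ : Z.Finite)
    (hZw : ∀ z ∈ Z, z ∈ w.ring) :
    ∃ (x : RPl Ω M) (P : RPl k Ω), ∀ z ∈ Z, ∀ c, Rs w z c → Rs (cmp x P) z c := by
  classical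
  -- a transcendental element of `K` with value zero
  obtain ⟨t, ht, htw⟩ : ∃ t : K, Transcendental k t ∧ Rs w (algebraMap Ω M (algebraMap K Ω t)) 0 := by
    obtain ⟨u, hu, -⟩ := id hK
    obtain ⟨u', hu', hm⟩ : ∃ u' : K, Transcendental k u' ∧ algebraMap Ω M (algebraMap K Ω u') ∈ w.ring := by
      rcases w.ring.mem_or_inv_mem (algebraMap Ω M (algebraMap K Ω u)) with h | h
      · exact ⟨u, hu, h⟩
      · exact ⟨u⁻¹, VP.transcendental_inv hu, by rw [map_inv₀, map_inv₀]; exact h⟩
    obtain ⟨c, hc⟩ := exists_rs hm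
    refine ⟨u' - algebraMap k K c, transcendental_sub_const hu' c, ?_⟩
    have h1 := hc.sub (rs_const (w := w) c)
    rw [sub_self] at h1
    rw [map_sub, map_sub, ← IsScalarTower.algebraMap_apply k K Ω, ← IsScalarTower.algebraMap_apply k Ω M]
    exact h1
  have hτ : Transcendental k (algebraMap K Ω t) :=
    (transcendental_algebraMap_iff (algebraMap K Ω).injective).mpr ht
  obtain ⟨τ, hτt⟩ : ∃ τ, τ = algebraMap K Ω t := ⟨_, rfl⟩
  rw [← hτt] at hτ htw
  obtain ⟨T, hTτ⟩ : ∃ T, T = algebraMap Ω M τ := ⟨_, rfl⟩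
  rw [← hTτ] at htw
  have hT : Transcendental k T := by
    rw [hTτ]
    exact (transcendental_algebraMap_iff (algebraMap Ω M).injective).mpr hτ
  have hT0 : T ≠ 0 := by
    intro h0
    rw [h0] at hT
    exact hT isAlgebraic_zero
  -- the algebras
  set G1 : Set M := insert T Z with hG1
  have hG1f : G1.Finite := hZ.insert T
  set G : Set M := insert T⁻¹ G1 with hG
  have hGf : G.Finite := hG1f.insert _
  set R : Subalgebra k M := Algebra.adjoin k G1 with hR
  set R' : Subalgebra k M := Algebra.adjoin k G with hR'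
  have hsub1 : ∀ z, z ∈ G1 → z ∈ R := fun z hz => Algebra.subset_adjoin hz
  have f1 : Algebra.FiniteType k R' :=
    (Subalgebra.fg_iff_finiteType _).mp (Subalgebra.fg_def.mpr ⟨G, hGf, rfl⟩)
  have f2 : Algebra.FiniteType k R :=
    (Subalgebra.fg_iff_finiteType _).mp (Subalgebra.fg_def.mpr ⟨G1, hG1f, rfl⟩)
  have hRR : R ≤ R' := Algebra.adjoin_mono (Set.subset_insert _ _)
  have hTR : T ∈ R := hsub1 T (Set.mem_insert _ _)
  have hTi : T⁻¹ ∈ R' := Algebra.subset_adjoin (Set.mem_insert _ _)
  have hRw : ∀ z ∈ R, z ∈ w.ring := by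
    intro z hz
    induction hz using Algebra.adjoin_induction with
    | mem z hz =>
      rcases hz with rfl | hz
      · exact htw.mem
      · exact hZw z hz
    | algebraMap c => exact w.alg c
    | add x y _ _ hx hy => exact w.ring.add_mem _ _ hx hy
    | mul x y _ _ hx hy => exact w.ring.mul_mem _ _ hx hy
  obtain ⟨χ0, hχ0⟩ := exists_reshom_rpl' w R hRw
  let _ : Algebra R R' := (Subalgebra.inclusion hRR).toRingHom.toAlgebra
  have _ : IsScalarTower k R R' := IsScalarTower.of_algebraMap_eq (fun r => rfl)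
  have hinj : Injective (algebraMap R R') := Subalgebra.inclusion_injective hRR
  obtain ⟨K1, iK, iA, hK1, χ, v0, hv0⟩ := curve_selection hinj χ0
  -- the image of `T` is transcendental
  obtain ⟨s, hs⟩ : ∃ s, s = χ ⟨T, hRR hTR⟩ := ⟨_, rfl⟩
  have hs1 : s * χ ⟨T⁻¹, hTi⟩ = 1 := by
    rw [hs, ← map_mul]
    have h1 : (⟨T, hRR hTR⟩ * ⟨T⁻¹, hTi⟩ : R') = 1 := Subtype.ext (mul_inv_cancel₀ hT0)
    rw [h1, map_one]
  have hsv : IsRes v0 s 0 := by
    have h1 := hv0 ⟨T, hTR⟩
    have h2 := (hχ0 ⟨T, hTR⟩).unique htw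
    rw [h2] at h1
    rw [hs]
    exact h1
  have hst : Transcendental k s := by
    intro h
    obtain ⟨c, hc⟩ := mem_range_of_isAlgebraic h
    rw [← hc] at hsv
    have h1 := isRes_const (v := v0) c
    have h2 := h1.unique hsv
    rw [← hc, h2, map_zero, zero_mul] at hs1
    exact zero_ne_one hs1
  -- the valuation ring
  let e : R'.toSubring →+* R' := RingHom.id _
  have hpr : (RingHom.ker (χ : R' →+* K1)).IsPrime := RingHom.ker_isPrime _
  have hpr' : (Ideal.comap e (RingHom.ker (χ : R' →+* K1))).IsPrime := hpr.comap e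
  obtain ⟨V, hAV, hVP⟩ := exists_val R'.toSubring (Ideal.comap e (RingHom.ker (χ : R' →+* K1)))
  have hR'V : ∀ r : R', (r : M) ∈ V := fun r => hAV r.2
  have hVP' : ∀ r : R', (r : M) ∈ V.nonunits ↔ χ r = 0 := fun r => hVP r
  have hRV : ∀ r ∈ R, r ∈ V := fun r hr => hR'V ⟨r, hRR hr⟩
  have hk : ∀ c : k, c ≠ 0 → V.valuation (algebraMap k M c) = 1 := by
    intro c hc
    refine val_unit (hR'V (algebraMap k R' c)) fun h => ?_
    have h1 := (hVP' (algebraMap k R' c)).mp h
    rw [AlgHom.commutes] at h1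
    exact hc ((map_eq_zero _).mp h1)
  have hTc : ∀ c : k, T - algebraMap k M c ∉ V.nonunits := by
    intro c h
    have h1 := (hVP' (⟨T, hRR hTR⟩ - algebraMap k R' c)).mp h
    rw [map_sub, AlgHom.commutes, ← hs, sub_eq_zero] at h1
    rw [h1] at hst
    exact hst (isAlgebraic_algebraMap c)
  have hTV : T ∈ V := hRV T hTR
  have hpoly : ∀ r : k[X], r ≠ 0 → V.valuation (algebraMap Ω M (aeval τ r)) = 1 := by
    intro r hr
    rw [← aeval_algebraMap_apply, ← hTτ]
    exact poly_unit V hk T hTV hTc _ r le_rfl hr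
  have hΩ : ∀ a : Ω, a ≠ 0 → V.valuation (algebraMap Ω M a) = 1 := by
    have _ : FiniteDimensional (IntermediateField.adjoin k {t}) K := hK.finiteDimensional ht
    have _ : Algebra.IsAlgebraic (IntermediateField.adjoin k {t}) Ω :=
      Algebra.IsAlgebraic.trans (IntermediateField.adjoin k {t}) K Ω
    intro a ha
    refine alg_unit (E := IntermediateField.adjoin k {t}) V ?_ inferInstance a ha
    rintro ⟨e, he⟩ he0
    obtain ⟨r, q, hrq⟩ := (IntermediateField.mem_adjoin_simple_iff k e).mp he
    have he1 : e ≠ 0 := fun h => he0 (Subtype.ext h)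
    have hr : r ≠ 0 := by
      rintro rfl
      rw [map_zero, zero_div] at hrq
      exact he1 hrq
    have hq : q ≠ 0 := by
      rintro rfl
      rw [map_zero, div_zero] at hrq
      exact he1 hrq
    have h1 : algebraMap Ω M (algebraMap (IntermediateField.adjoin k {t}) Ω ⟨e, he⟩) =
        algebraMap Ω M (aeval τ r) / algebraMap Ω M (aeval τ q) := by
      rw [← map_div₀, hτt, aeval_algebraMap_apply, aeval_algebraMap_apply, ← map_div₀, ← hrq]
      rfl
    rw [h1, map_div₀, hpoly r hr, hpoly q hq, div_one]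
  have hΩV : ∀ a : Ω, algebraMap Ω M a ∈ V := by
    intro a
    by_cases ha : a = 0
    · rw [ha, map_zero]
      exact V.zero_mem
    · rw [← V.valuation_le_one_iff, hΩ a ha]
  have huniq : ∀ a : Ω, algebraMap Ω M a ∈ V.nonunits → a = 0 := by
    intro a ha
    by_contra h0
    rw [ValuationSubring.mem_nonunits_iff, hΩ a h0] at ha
    exact lt_irrefl _ ha
  -- residues
  have hres1 : ∀ z ∈ Z, ∃ a : Ω, z - algebraMap Ω M a ∈ V.nonunits := by
    intro z hz
    have hzR : z ∈ R := hsub1 z (Set.mem_insert_of_mem _ hz)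
    by_contra hcon
    push Not at hcon
    have _ : FiniteDimensional (IntermediateField.adjoin k {s}) K1 := hK1.finiteDimensional hst
    obtain ⟨p, hp0, hp⟩ := exists_poly2 (k := k) s (χ ⟨z, hRR hzR⟩) (Algebra.IsAlgebraic.isAlgebraic _)
    set r0 : R' := p.eval₂ ((aeval (⟨T, hRR hTR⟩ : R') : k[X] →ₐ[k] R') : k[X] →+* R') ⟨z, hRR hzR⟩ with hr0
    have h1 : χ r0 = 0 := by
      have h2 : χ r0 = p.eval₂ ((χ : R' →+* K1).comp
          ((aeval (⟨T, hRR hTR⟩ : R') : k[X] →ₐ[k] R') : k[X] →+* R')) (χ ⟨z, hRR hzR⟩) :=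
        hom_eval₂ _ _ _ _
      rw [h2, ← hp]
      congr 1
      ext a
      · change χ (aeval _ (C a)) = aeval s (C a)
        rw [aeval_C, aeval_C, AlgHom.commutes]
      · change χ (aeval _ X) = aeval s X
        rw [aeval_X, aeval_X, hs]
    have h3 : (r0 : M) ∈ V.nonunits := (hVP' r0).mpr h1
    have h4 : (r0 : M) = aeval z (p.map ((aeval τ : k[X] →ₐ[k] Ω) : k[X] →+* Ω)) := by
      have h5 : (r0 : M) = p.eval₂ ((R'.val : R' →+* M).comp
          ((aeval (⟨T, hRR hTR⟩ : R') : k[X] →ₐ[k] R') : k[X] →+* R')) z := hom_eval₂ _ _ (R'.val : R' →+* M) _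
      rw [h5, aeval_def, eval₂_map]
      congr 1
      ext a
      · change (R'.val (aeval _ (C a)) : M) = algebraMap Ω M (aeval τ (C a))
        rw [aeval_C, aeval_C, AlgHom.commutes, ← IsScalarTower.algebraMap_apply k Ω M]
      · change (R'.val (aeval _ X) : M) = algebraMap Ω M (aeval τ X)
        rw [aeval_X, aeval_X, ← hTτ]
        rfl
    have h6 : p.map ((aeval τ : k[X] →ₐ[k] Ω) : k[X] →+* Ω) ≠ 0 :=
      (Polynomial.map_ne_zero_iff (transcendental_iff_injective.mp hτ)).mpr hp0
    have h7 := poly_unit V hΩ z (hRV z hzR) hcon _ _ le_rfl h6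
    rw [h4, ValuationSubring.mem_nonunits_iff, h7] at h3
    exact lt_irrefl _ h3
  have nadd : ∀ {a b : M}, a ∈ V.nonunits → b ∈ V.nonunits → a + b ∈ V.nonunits := by
    intro a b ha hb
    rw [ValuationSubring.mem_nonunits_iff] at *
    exact lt_of_le_of_lt (Valuation.map_add _ _ _) (max_lt ha hb)
  have nmul : ∀ {a b : M}, a ∈ V → b ∈ V.nonunits → a * b ∈ V.nonunits := by
    intro a b ha hb
    rw [ValuationSubring.mem_nonunits_iff] at *
    rw [map_mul]
    exact lt_of_le_of_lt (mul_le_of_le_one_left' ((V.valuation_le_one_iff a).mpr ha)) hb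
  have nneg : ∀ {a : M}, a ∈ V.nonunits → -a ∈ V.nonunits := by
    intro a ha
    rw [ValuationSubring.mem_nonunits_iff] at *
    rwa [Valuation.map_neg]
  set A : Subalgebra Ω M := Algebra.adjoin Ω Z with hA
  have hZA : ∀ z ∈ Z, z ∈ A := fun z hz => Algebra.subset_adjoin hz
  have hres : ∀ z ∈ A, z ∈ V ∧ ∃ a : Ω, z - algebraMap Ω M a ∈ V.nonunits := by
    intro z hz
    induction hz using Algebra.adjoin_induction with
    | mem z hz => exact ⟨hRV z (hsub1 z (Set.mem_insert_of_mem _ hz)), hres1 z hz⟩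
    | algebraMap c =>
      refine ⟨hΩV c, c, ?_⟩
      rw [sub_self, ValuationSubring.mem_nonunits_iff_or]
      exact Or.inl rfl
    | add x y _ _ hx hy =>
      obtain ⟨hx, a, ha⟩ := hx
      obtain ⟨hy, b, hb⟩ := hy
      refine ⟨V.add_mem _ _ hx hy, a + b, ?_⟩
      have h1 := nadd ha hb
      rw [map_add]
      convert h1 using 1
      ring
    | mul x y _ _ hx hy =>
      obtain ⟨hx, a, ha⟩ := hx
      obtain ⟨hy, b, hb⟩ := hy
      refine ⟨V.mul_mem _ _ hx hy, a * b, ?_⟩
      have h1 := nadd (nmul hy ha) (nmul (hΩV a) hb)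
      rw [map_mul]
      convert h1 using 1
      ring
  choose g hg using fun z : A => (hres z z.2).2
  have hgu : ∀ (z : A) (a : Ω), (z : M) - algebraMap Ω M a ∈ V.nonunits → g z = a := by
    intro z a ha
    have h1 := nadd ha (nneg (hg z))
    have h2 : (z : M) - algebraMap Ω M a + -((z : M) - algebraMap Ω M (g z)) = algebraMap Ω M (g z - a) := by
      rw [map_sub]
      ring
    rw [h2] at h1
    exact sub_eq_zero.mp (huniq _ h1)
  have n0 : (0 : M) ∈ V.nonunits := by
    rw [ValuationSubring.mem_nonunits_iff_or]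
    exact Or.inl rfl
  let θ : A →ₐ[Ω] Ω :=
    { toFun := g
      map_one' := hgu 1 1 (by rw [map_one]; change (1 : M) - 1 ∈ V.nonunits; rw [sub_self]; exact n0)
      map_mul' := fun x y => hgu _ _ (by
        have h1 := nadd (nmul (hres y y.2).1 (hg x)) (nmul (hΩV (g x)) (hg y))
        rw [map_mul]
        change (x : M) * (y : M) - _ ∈ V.nonunits
        convert h1 using 1
        ring)
      map_zero' := hgu 0 0 (by rw [map_zero]; change (0 : M) - 0 ∈ V.nonunits; rw [sub_self]; exact n0)
      map_add' := fun x y => hgu _ _ (by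
        have h1 := nadd (hg x) (hg y)
        rw [map_add]
        change (x : M) + (y : M) - _ ∈ V.nonunits
        convert h1 using 1
        ring)
      commutes' := fun c => hgu _ _ (by
        change algebraMap Ω M c - algebraMap Ω M c ∈ V.nonunits
        rw [sub_self]
        exact n0) }
  obtain ⟨x, hx⟩ := exists_rpl A θ
  -- the place of `Ω`
  have hRA : ∀ r ∈ R, r ∈ A := by
    intro r hr
    induction hr using Algebra.adjoin_induction with
    | mem z hz =>
      rcases hz with rfl | hz
      · rw [hTτ]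
        exact A.algebraMap_mem τ
      · exact hZA z hz
    | algebraMap c =>
      rw [IsScalarTower.algebraMap_apply k Ω M]
      exact A.algebraMap_mem _
    | add x y _ _ hx hy => exact A.add_mem hx hy
    | mul x y _ _ hx hy => exact A.mul_mem hx hy
  let ι : R →ₐ[k] Ω :=
    { toFun := fun r => θ ⟨r.1, hRA r.1 r.2⟩
      map_one' := map_one θ
      map_mul' := fun a b => map_mul θ ⟨a.1, hRA a.1 a.2⟩ ⟨b.1, hRA b.1 b.2⟩
      map_zero' := map_zero θ
      map_add' := fun a b => map_add θ ⟨a.1, hRA a.1 a.2⟩ ⟨b.1, hRA b.1 b.2⟩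
      commutes' := fun c => by
        have h1 := θ.commutes (algebraMap k Ω c)
        refine Eq.trans (congrArg θ (Subtype.ext ?_)) h1
        change algebraMap k M c = algebraMap Ω M (algebraMap k Ω c)
        exact IsScalarTower.algebraMap_apply k Ω M c }
  have hker : RingHom.ker ι.rangeRestrict.toRingHom ≤ RingHom.ker χ0.toRingHom := by
    intro r hr
    have h1 : ι r = 0 := congrArg Subtype.val ((RingHom.mem_ker).mp hr)
    have h2 : (r : M) ∈ V.nonunits := by
      have h3 := hg ⟨r.1, hRA r.1 r.2⟩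
      have h4 : g ⟨r.1, hRA r.1 r.2⟩ = 0 := h1
      rw [h4, map_zero, sub_zero] at h3
      exact h3
    have h5 : χ ⟨r.1, hRR r.2⟩ = 0 := (hVP' ⟨r.1, hRR r.2⟩).mp h2
    have h6 := hv0 r
    have h7 : χ (algebraMap R R' r) = 0 := h5
    rw [h7] at h6
    exact (RingHom.mem_ker).mpr (h6.unique isRes_zero)
  obtain ⟨P, hP⟩ := exists_rpl ι.range (AlgHom.liftOfSurjective ι.rangeRestrict ι.rangeRestrict_surjective χ0 hker)
  refine ⟨x, P, fun z hz c hc => ?_⟩
  have hzR : z ∈ R := hsub1 z (Set.mem_insert_of_mem _ hz)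
  rw [rs_cmp]
  refine ⟨θ ⟨z, hRA z hzR⟩, hx ⟨z, hRA z hzR⟩, ?_⟩
  have h1 := hP (ι.rangeRestrict ⟨z, hzR⟩)
  rw [AlgHom.liftOfSurjective_apply] at h1
  rw [(hχ0 ⟨z, hzR⟩).unique hc] at h1
  exact h1

end main

end Pool.Agent.Helper35.JC
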