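import Mathlib
import Pool.Agent.Helper35.JC.Gen

/-!
# JC: block GEN, every point of a model is the center of a composite place
-/

set_option linter.unusedSectionVars false

namespace Pool.Agent.Helper35.JC

open VC VF Function Polynomial Pool.Agent.Helper21.TO Pool.Agent.Helper21.TB Pool.Agent.Helper15.GT
open Pool.Agent.Helper15.KP Pool.Agent.Helper98.JC Pool.Agent.Helper79.JC

universe u

/-- Every point of a model is the center of a composite place. -/
theorem center {k K F : Type u} [Field k] [IsAlgClosed k] [CharZero k] [Field K] [Algebra k K] [Field F]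
    [Algebra k F] (κ : K →ₐ[k] F) {Ω M : Type u} [Field Ω] [Algebra k Ω] [Algebra K Ω] [IsScalarTower k K Ω]
    [IsAlgClosed Ω] [CharZero Ω] [Algebra.IsAlgebraic K Ω] [Field M] [Algebra k M] [Algebra Ω M]
    [IsScalarTower k Ω M] (hK : IsFunctionField k K) (j : F →ₐ[k] M)
    (hj : ∀ a : K, j (κ a) = algebraMap Ω M (algebraMap K Ω a)) (N : ℕ) (ξ : Fin N → F) (hξ : ξ ≠ 0)
    (w : RPl k F) :
    ∃ (x : RPl Ω M) (P : RPl k Ω), P.comap (IsScalarTower.toAlgHom k K Ω) = w.comap κ ∧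
        evP ξ hξ ((cmp x P).comap j) = evP ξ hξ w := by
  classical
  obtain ⟨w', hw'⟩ := exists_lift j w
  have hww : ∀ z c, Rs w z c ↔ Rs w' (j z) c := fun z c => by rw [← hw', rs_comap]
  obtain ⟨V, hVP, -, -, hVsep⟩ := exists_sep hK (w.pl hK κ)
  obtain ⟨b, hb, hs, hv, he⟩ := exists_evP ξ hξ w
  obtain ⟨hb0, r, hr⟩ := id hv
  obtain ⟨x, P, hxP⟩ := dense (Ω := Ω) hK w' (Set.range (fun i => j (r * ξ i)) ∪ (fun a => j (κ a)) '' (V : Set K))
    ((Set.finite_range _).union (V.finite_toSet.image _)) (by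
      rintro z (⟨i, rfl⟩ | ⟨a, ha, rfl⟩)
      · exact ((hww _ _).mp (hr i)).mem
      · obtain ⟨c, hc⟩ := exists_res hK (hVP a ha)
        exact ((hww _ _).mp ((isRes_pl hK κ w a c).mp hc)).mem)
  refine ⟨x, P, ?_, ?_⟩
  · have h1 : P.pl hK (IsScalarTower.toAlgHom k K Ω) = w.pl hK κ := by
      refine hVsep _ _ fun a ha => ?_
      obtain ⟨c, hc⟩ := exists_res hK (hVP a ha)
      refine ⟨c, ?_, hc⟩
      have h2 := hxP (j (κ a)) (Or.inr ⟨a, ha, rfl⟩) c ((hww _ _).mp ((isRes_pl hK κ w a c).mp hc))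
      rw [hj] at h2
      rw [isRes_pl]
      have h3 : Rs ((cmp x P).comap (IsScalarTower.toAlgHom k Ω M)) (algebraMap K Ω a) c := by
        rw [rs_comap]
        exact h2
      rw [cmp_base] at h3
      exact h3
    exact RPl.ext (congrArg Place.ring h1)
  · have h1 : Vl ((cmp x P).comap j) ξ b := by
      refine ⟨hb0, r, fun i => ?_⟩
      rw [rs_comap]
      exact hxP _ (Or.inl ⟨i, rfl⟩) _ ((hww _ _).mp (hr i))
    rw [he, evP_eq hξ h1 h1.1 h1.sat]

theorem gen : StmtGen := by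
  intro k K F _ _ _ _ _ _ _ κ Ω M _ _ _ _ _ _ _ _ _ _ _ hK D N ξ hξ
  exact ⟨∅, Set.finite_empty, fun w _ => center κ hK D.j D.hj N ξ hξ w⟩

/-- A harmonic function is determined by its values at the composite places. -/
theorem hf_eq {k K F : Type u} [Field k] [IsAlgClosed k] [CharZero k] [Field K] [Algebra k K] [Field F]
    [Algebra k F] (κ : K →ₐ[k] F) {Ω M : Type u} [Field Ω] [Algebra k Ω] [Algebra K Ω] [IsScalarTower k K Ω]
    [IsAlgClosed Ω] [CharZero Ω] [Algebra.IsAlgebraic K Ω] [Field M] [Algebra k M] [Algebra Ω M]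
    [IsScalarTower k Ω M] (hK : IsFunctionField k K) (j : F →ₐ[k] M)
    (hj : ∀ a : K, j (κ a) = algebraMap Ω M (algebraMap K Ω a)) {u : RPl k F → k} (hu : HF k F u)
    (ν : RPl k K → k)
    (h : ∀ (x : RPl Ω M) (P : RPl k Ω), u ((cmp x P).comap j) = ν (P.comap (IsScalarTower.toAlgHom k K Ω)))
    (w : RPl k F) : u w = ν (w.comap κ) := by
  obtain ⟨N, ξ, hξ, φ, hφ, hw⟩ := hu
  obtain ⟨x, P, h1, h2⟩ := center κ hK j hj N ξ hξ w
  rw [hw, ← h2, ← hw, h, h1]

end Pool.Agent.Helper35.JC
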